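import Pool.Agent.Helper75.SH.HTR
import Pool.Agent.Helper42.SH.HFend
import Pool.Agent.Helper49.SH.CellE
import Pool.Agent.Helper44.RC.M_LC4
import Pool.Agent.Helper25.SH.Wid

/-!
# Project SHARP (MP_b21509_co), zone II: THE LAST THEOREM OF A CELL

`cell_fin`: the cell `q15m (R.q, l)` of a record `R` from its kernel checks, the 14 blocks (`Pieces` of helper42), the
tail rows (`hPT`), the far rows (`hFR`), the diagonal and the matrix check of helper25. `widB`: blocks with wider digits.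
-/

set_option autoImplicit false

open MeasureTheory Set Filter Topology

namespace Helper70.SH

open Helper49.LT hiding sg
open Helper49.RC Helper44.GQ Helper49.Sharp Helper49.Cell
open Helper56.RC (fc)
open Helper56.SH (Cell)
open Helper44.Far (Near okLam lam_rec VP LC)
open Helper95.SH (CD Arr GI pV rV sV qk)
open Helper43.CL (LB)
open Helper25.SH.Mat
open Helper42.SH (LBB BF Pieces allB gDG cell_ok)
open Pool.Agent.Helper20.RC (lk)
open Pool.Agent.Helper75.SH (HTok WtR okW HTok_all FARR x2 x3 TSc)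
open Pool.Agent.Helper56.TS (TI TC okTS)
open Pool.Agent.Helper15.SH (q15 q15m)

/-! ### blocks with wider digits -/

/-- a block with wider digits -/
def widB (b1 b2 mm : ℕ) : Blk → Blk
  | .sq s c m A => .sq s c m (wid b1 b2 mm m A)
  | .bl s c m A B => .bl s c m (wid b1 b2 mm m A) (wid b1 b2 mm m B)

/-- the check of a block: `m ≤ 2 ^ mm`, at least `n` coordinates -/
def okWB (n mm : ℕ) : Blk → Bool
  | .sq _ _ m A => bif Nat.ble m (Nat.pow 2 mm) then Nat.ble n A.length else false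
  | .bl _ _ m A B =>
    bif Nat.ble m (Nat.pow 2 mm) then (bif Nat.ble n A.length then Nat.ble n B.length else false) else false

/-- a list of blocks -/
def okWL (n mm : ℕ) : List Blk → Bool
  | [] => true
  | x :: l => bif okWB n mm x then okWL n mm l else false

theorem widB_val {b1 b2 mm n : ℕ} (hb : b1 ≤ b2) {x : Blk} (h : okWB n mm x = true) (v : ℕ → ℝ) :
    Blk.val b2 n v (widB b1 b2 mm x) = Blk.val b1 n v x := by
  cases x with
  | sq s c m A =>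
    simp only [okWB, Bool.cond_false_right, Bool.and_eq_true] at h
    exact val_wid_sq hb (Nat.le_of_ble_eq_true h.1) (Nat.le_of_ble_eq_true h.2) s c v
  | bl s c m A B =>
    simp only [okWB, Bool.cond_false_right, Bool.and_eq_true] at h
    exact val_wid_bl hb (Nat.le_of_ble_eq_true h.1) (Nat.le_of_ble_eq_true h.2.1) (Nat.le_of_ble_eq_true h.2.2) s c v

theorem widL_BF {b1 b2 mm n : ℕ} (hb : b1 ≤ b2) : ∀ (l : List Blk), okWL n mm l = true → ∀ v : ℕ → ℝ,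
    BF b2 n (l.map (widB b1 b2 mm)) v = BF b1 n l v
  | [], _, _ => rfl
  | x :: l, h, v => by
    simp only [okWL, Bool.cond_false_right, Bool.and_eq_true] at h
    rw [List.map_cons, Helper42.SH.BF_cons, Helper42.SH.BF_cons, widB_val hb h.1, widL_BF hb l h.2]

/-- **a field of `Pieces` with wider digits** -/
theorem lbb_wid {b1 b2 mm n : ℕ} (hb : b1 ≤ b2) {S : ℝ} {g : (ℕ → ℝ) → ℝ} {l : List Blk} {E : ℝ}
    (h : LBB b1 n S g l E) (hl : okWL n mm l = true) : LBB b2 n S g (l.map (widB b1 b2 mm)) E :=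
  Helper43.CL.LB.congr h (fun _ _ => rfl) (fun v _ => widL_BF hb l hl v)

/-! ### errors and lists -/

/-- a list of lists of blocks as a function -/
def fB (l : List (List Blk)) (i : ℕ) : List Blk := l.getD i []
/-- a list of errors as a function -/
def fE (l : List ℕ) (i : ℕ) : ℕ := l.getD i 0

/-- the sum of a list, one addition per entry -/
def sE : List ℕ → ℕ
  | [] => 0
  | a :: l => Nat.add a (sE l)

/-- **the check of the errors**: the sum of the errors of the blocks, the error of the diagonal and the slack of the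
matrix check are at most `T` -/
def okE (n eM T F : ℕ) (E : List ℕ) : Bool :=
  Nat.ble (Nat.add (Nat.add (sE E) F) (Nat.mul n (Nat.succ eM))) T

/-! ### the cell -/

section

variable {c : CD} {K H kD J1 J2 : ℕ} {al : ℕ → ℝ} {tz t2 t3 : ℝ} {b n : ℕ} {S : ℝ}
  {B0 B1 B2 B3 B4 B5 B6 B7 B8 B9 B10 B11 B12 B13 : List Blk} {E0 E1 E2 E3 E4 E5 E6 E7 E8 E9 E10 E11 E12 E13 : ℕ}

/-- the blocks in the order of `Pieces` -/
theorem allB_fB : allB (fB [B0, B1, B2, B3, B4, B5, B6, B7, B8, B9, B10, B11, B12, B13]) =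
    B0 ++ (B1 ++ (B2 ++ (B3 ++ (B4 ++ (B5 ++ (B6 ++ (B7 ++ (B8 ++ (B9 ++ (B10 ++ (B11 ++ (B12 ++ B13)))))))))))) := by
  have h : List.range 14 = [0, 1, 2, 3, 4, 5, 6, 7, 8, 9, 10, 11, 12, 13] := by decide
  unfold allB
  rw [h]
  simp only [List.flatMap_cons, List.flatMap_nil, List.append_nil]
  rfl

theorem sum_fE (T F n eM : ℕ) (h : okE n eM T F [E0, E1, E2, E3, E4, E5, E6, E7, E8, E9, E10, E11, E12, E13] = true) :
    ∑ i ∈ Finset.range 14, ((fE [E0, E1, E2, E3, E4, E5, E6, E7, E8, E9, E10, E11, E12, E13] i : ℕ) : ℝ) + (F : ℝ) ≤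
      (T : ℝ) - n * (eM + 1) := by
  have h1 : (E0 + (E1 + (E2 + (E3 + (E4 + (E5 + (E6 + (E7 + (E8 + (E9 + (E10 + (E11 + (E12 + (E13 + 0)))))))))))))) + F +
      n * (eM + 1) ≤ T := Nat.le_of_ble_eq_true h
  have h2 : ∑ i ∈ Finset.range 14, ((fE [E0, E1, E2, E3, E4, E5, E6, E7, E8, E9, E10, E11, E12, E13] i : ℕ) : ℝ) =
      (E0 : ℝ) + E1 + E2 + E3 + E4 + E5 + E6 + E7 + E8 + E9 + E10 + E11 + E12 + E13 := by
    simp only [Finset.sum_range_succ, Finset.sum_range_zero, zero_add]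
    rfl
  rw [h2]
  have h3 : (((E0 + (E1 + (E2 + (E3 + (E4 + (E5 + (E6 + (E7 + (E8 + (E9 + (E10 + (E11 + (E12 + (E13 + 0)))))))))))))) + F +
      n * (eM + 1) : ℕ) : ℝ) ≤ (T : ℝ) := Nat.cast_le.2 h1
  push_cast at h3
  linarith

end

/-- **THE LAST THEOREM OF A CELL** -/
theorem cell_fin {R : Rec} {C : Crt} (h : R.ok C = true) {K0 : ℕ} (len : Len R K0) {D : CrtD} (hm : okM R D = true)
    (hc : okCs R = true) (H : LocH) {T : TI} {kd : ℝ → ℝ} {al be ga wl : ℕ → ℝ} {A alI bL d k ph del : ℝ}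
    {k0 kD M0 : ℕ} (o : HTok (cd R h len D.s) T.tsc kd al be ga wl A alI bL d k ph del k0 kD M0)
    {Hh J1 J2 : ℕ} (hL : T.L = 2 * Hh) (k1 : K0 ≤ T.K) (k2 : K0 ≤ T.L) {PT FR : (ℕ → ℝ) → ℝ}
    (hPT : ∀ v : ℕ → ℝ, v 0 = 1 → ∑' j : ℕ, (lk (j + kD) ^ 2 - 1) *
      ‖qk (cd R h len D.s) (max T.K T.L) (pV T.K T.L v) (rV T.K T.L v) (sV T.K v) (j + kD)‖ ^ 2 ≤ PT v)
    (hFR : ∀ (N : ℕ) (v : ℕ → ℝ), v 0 = 1 →
      FARR (cd R h len D.s) T.tsc bL J1 J2 N (max T.K T.L) (pV T.K T.L v) (rV T.K T.L v) (sV T.K v) ≤ FR v)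
    {b n eM TM cc m F : ℕ} {S : ℝ}
    {B0 B1 B2 B3 B4 B5 B6 B7 B8 B9 B10 B11 B12 B13 : List Blk} {E0 E1 E2 E3 E4 E5 E6 E7 E8 E9 E10 E11 E12 E13 : ℕ}
    {X Pd Dd : List ℕ} (hS : 0 < S)
    (nf : LBB b n S (fun v => Helper42.SH.gNF (cd R h len D.s) T.K Hh (max T.K (2 * Hh)) v) B0 (E0 : ℝ))
    (o1 : LBB b n S (fun v => Helper42.SH.gO1 (cd R h len D.s) T.K Hh (max T.K (2 * Hh)) v) B1 (E1 : ℝ))
    (pr : LBB b n S (fun v => Helper42.SH.gPR (cd R h len D.s) T.K Hh (max T.K (2 * Hh)) v) B2 (E2 : ℝ))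
    (lin : LBB b n S (fun v => Helper42.SH.gLIN (cd R h len D.s) T.K Hh (max T.K (2 * Hh)) v) B3 (E3 : ℝ))
    (lo : LBB b n S (fun v => Helper42.SH.gLO (cd R h len D.s) T.K v) B4 (E4 : ℝ))
    (bp : LBB b n S (fun v => Helper42.SH.gBP (cd R h len D.s) T.K Hh v) B5 (E5 : ℝ))
    (br : LBB b n S (fun v => Helper42.SH.gBR (cd R h len D.s) T.K Hh v) B6 (E6 : ℝ))
    (zp : LBB b n S (fun v => Helper42.SH.gZP (cd R h len D.s) T.K Hh v) B7 (E7 : ℝ))
    (zr : LBB b n S (fun v => Helper42.SH.gZR (cd R h len D.s) T.K Hh v) B8 (E8 : ℝ))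
    (q : LBB b n S (fun v => Helper42.SH.gQ (cd R h len D.s) T.K v) B9 (E9 : ℝ))
    (x : LBB b n S (fun v => Helper42.SH.gX (cd R h len D.s) T.K Hh (max T.K (2 * Hh)) v J1 T.tsc.tz) B10 (E10 : ℝ))
    (y : LBB b n S (fun v => Helper42.SH.gY (cd R h len D.s) T.K Hh (max T.K (2 * Hh)) v J2
      (T.tsc.t2 - x2 T.tsc (cd R h len D.s) bL)) B11 (E11 : ℝ))
    (z : LBB b n S (fun v => Helper42.SH.gZ (cd R h len D.s) T.K Hh (max T.K (2 * Hh)) v J2
      (T.tsc.t3 - x3 T.tsc (cd R h len D.s) bL)) B12 (E12 : ℝ))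
    (d2 : LBB b n S (fun v => Helper42.SH.gD2 (cd R h len D.s) T.K Hh (max T.K (2 * Hh)) v kD al) B13 (E13 : ℝ))
    (hd : LB n S (fun v => gDG (cd R h len D.s).P.nu alI PT FR v) (dgv n Pd Dd) (F : ℝ))
    (hs : ∀ v : ℕ → ℝ, ((TM : ℝ) - n * (eM + 1)) * Helper95.SH.sqv n v ≤ BF b n (.sq true cc m X ::
      (B0 ++ (B1 ++ (B2 ++ (B3 ++ (B4 ++ (B5 ++ (B6 ++ (B7 ++ (B8 ++ (B9 ++ (B10 ++ (B11 ++ (B12 ++ B13)))))))))))))) v
      + dgv n Pd Dd v)
    (hE : okE n eM TM F [E0, E1, E2, E3, E4, E5, E6, E7, E8, E9, E10, E11, E12, E13] = true)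
    {l : List ℤ} (hlam : LamH R l) : Cell (q15m (R.q, l)) := by
  have ok := cd_ok h len hm H
  have p : Pieces (cd R h len D.s) T.tsc.K Hh kD J1 J2 al T.tsc.tz (T.tsc.t2 - x2 T.tsc (cd R h len D.s) bL)
      (T.tsc.t3 - x3 T.tsc (cd R h len D.s) bL) b n S (fB [B0, B1, B2, B3, B4, B5, B6, B7, B8, B9, B10, B11, B12, B13])
      (fun i => ((fE [E0, E1, E2, E3, E4, E5, E6, E7, E8, E9, E10, E11, E12, E13] i : ℕ) : ℝ)) :=
    ⟨nf, o1, pr, lin, lo, bp, br, zp, zr, q, x, y, z, d2⟩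
  refine cell_gi h len hm hc H (N0 := max T.K T.L) ?_ hlam
  refine Helper42.SH.cell_GI ok par_a0 (loE_rec R h len D.s) o hL k1 (hL ▸ k2) hPT hFR hS p hd (cc := cc) (m := m)
    (R := X) (fun v => ?_) (sum_fE TM F n eM hE)
  rw [allB_fB]
  exact hs v

/-- **THE LAST THEOREM OF A CELL**, blocks and errors as functions (the form of the templates) -/
theorem cell_all {R : Rec} {C : Crt} (h : R.ok C = true) {K0 : ℕ} (len : Len R K0) {D : CrtD} (hm : okM R D = true)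
    (hc : okCs R = true) (H : LocH) {T : TI} {kd : ℝ → ℝ} {al be ga wl : ℕ → ℝ} {A alI bL d k ph del : ℝ}
    {k0 kD M0 : ℕ} (o : HTok (cd R h len D.s) T.tsc kd al be ga wl A alI bL d k ph del k0 kD M0)
    {Hh J1 J2 : ℕ} (hL : T.L = 2 * Hh) (k1 : K0 ≤ T.K) (k2 : K0 ≤ T.L) {PT FR : (ℕ → ℝ) → ℝ}
    (hPT : ∀ v : ℕ → ℝ, v 0 = 1 → ∑' j : ℕ, (lk (j + kD) ^ 2 - 1) *
      ‖qk (cd R h len D.s) (max T.K T.L) (pV T.K T.L v) (rV T.K T.L v) (sV T.K v) (j + kD)‖ ^ 2 ≤ PT v)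
    (hFR : ∀ (N : ℕ) (v : ℕ → ℝ), v 0 = 1 →
      FARR (cd R h len D.s) T.tsc bL J1 J2 N (max T.K T.L) (pV T.K T.L v) (rV T.K T.L v) (sV T.K v) ≤ FR v)
    {b n eM TM cc m F : ℕ} {S : ℝ} {B : ℕ → List Blk} {E : ℕ → ℕ} {X Pd Dd : List ℕ} (hS : 0 < S)
    (p : Pieces (cd R h len D.s) T.K Hh kD J1 J2 al T.tsc.tz (T.tsc.t2 - x2 T.tsc (cd R h len D.s) bL)
      (T.tsc.t3 - x3 T.tsc (cd R h len D.s) bL) b n S B (fun i => ((E i : ℕ) : ℝ)))
    (hd : LB n S (fun v => gDG (cd R h len D.s).P.nu alI PT FR v) (dgv n Pd Dd) (F : ℝ))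
    (hs : ∀ v : ℕ → ℝ, ((TM : ℝ) - n * (eM + 1)) * Helper95.SH.sqv n v ≤
      ((Blk.sq true cc m X :: allB B).map (Blk.val b n v)).sum + dgv n Pd Dd v)
    (hE : ∑ i ∈ Finset.range 14, ((E i : ℕ) : ℝ) + (F : ℝ) + (n : ℝ) * ((eM : ℝ) + 1) ≤ (TM : ℝ))
    {l : List ℤ} (hlam : LamH R l) : Cell (q15m (R.q, l)) := by
  have ok := cd_ok h len hm H
  refine cell_gi h len hm hc H (N0 := max T.K T.L) ?_ hlam
  exact Helper42.SH.cell_GI ok par_a0 (loE_rec R h len D.s) o hL k1 (hL ▸ k2) hPT hFR hS p hd (cc := cc) (m := m)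
    (R := X) hs (by linarith)

/-- the price `Lam` of a record with the second list `[1]` -/
theorem lam_one {R : Rec} {C : Crt} (h : R.ok C = true) {N e : ℕ} {V1 V2 : VP} {T1 T2 : List (ℤ × ℤ)} {X : LC}
    (hX : okLam R N e V1 V2 T1 T2 X = true) (l : List ℤ) : LamH R l :=
  lamH_all fun b z ha hn => lam_rec h hX b z ha hn

end Helper70.SH
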