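import Pool.Agent.Helper95.SH.Win
import Pool.Agent.Helper49.RC.CellR
import Pool.Agent.Helper87.SH.UP
import Pool.Agent.Helper44.RC.M_NR2
import Pool.Agent.Helper15.SH.Q15m
import Pool.Agent.Helper51.RC.M_REG

/-!
# Project SHARP (MP_b21509_co), zone II: from a record to a cell, and the last line for lists of records

`cd`: the data `CD` (helper95) of the record `R` (helper49), with the fields `dP s R.f1`, `dP s R.f2` (helper87) and
the polynomial `q15 R.q` (helper15). `cd_ok`: the static conditions. `cell_rec`: the cell `q15m (R.q, l)` from `0 ≤ HF`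
on the head coordinates, the tail theorem and `Lam` on `0 ≤ q15 R.q`, `0 ≤ q15 l`. `cs_rec`: the condition `Cs` is an
integer check. `final_list`: all pairs of the tables are cells, the two coverings and zone I give the last line.
-/

set_option autoImplicit false

open MeasureTheory Set Filter Metric

namespace Helper70.SH

open Helper49.LT hiding sg
open Helper49.RC Helper44.GQ Helper49.Sharp Helper49.Cell
open Helper56.RC (fc)
open Helper56.SH (Stat Cell Cov1 Cov2 StZ1 Cert)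
open Helper44.Far (Near)
open Helper54.RC.Fast (FP)
open Helper76.RC.TrD (Th Th')
open Helper87.RC (BM)
open Helper87.SH (dP okP okP_bm)
open Helper95.RC (Sup)
open Helper95.SH (CD Lo Arr TlKL GI pV rV sV GI_nonneg passI)
open Helper41.SH (IA inv)
open Pool.Agent.Helper15.SH (q15 q15m)

/-- link (4), the box of the records -/
def LocH : Prop := Helper50.SH.P4F (17 / 20) (4 / 5) 1 (3 / 2) (-(18 / 1000)) (36 / 1000) (33903 / 1048576) (1 / 2)

/-- the degrees of `z0` and `b0` are at most `K0` -/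
structure Len (R : Rec) (K0 : ℕ) : Prop where
  k : 11 ≤ K0
  l2 : 2 * R.b2.length ≤ K0
  l3 : 2 * R.b3.length ≤ K0

/-- certificates of the fields of the second multiplier, scale `2 ^ s` -/
structure CrtD where
  b : ℕ
  r : ℕ
  s : ℕ
  q1 : FP
  q2 : FP

/-- **the kernel check of the multipliers** -/
def okM (R : Rec) (D : CrtD) : Bool :=
  bif decide (0 ≤ R.mu1) then
    bif decide (0 ≤ R.mu2) then
      bif okP D.b D.r D.s R.f1 D.q1 then okP D.b D.r D.s R.f2 D.q2 else false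
    else false
  else false

/-- **the kernel check of `Cs`** -/
def okCs (R : Rec) : Bool :=
  decide (0 ≤ R.cs ∧ 17 * (10000000000 + 3 * (R.e1 * R.e1 + R.e2 * R.e2)) ≤ 243 * (R.cs * R.cs))

section

variable (R : Rec) {C : Crt} (h : R.ok C = true) {K0 : ℕ} (len : Len R K0) (s : ℕ)

/-- THE DATA OF THE CELL OF A RECORD; `2 ^ s` is the scale of the fields `f1`, `f2` -/
noncomputable def cd : CD where
  P := R.par
  K0 := K0
  L := Rec.lo h len.k len.l2 len.l3
  Th1 := Th 1000 R.D1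
  Th1' := Th' 1000 R.D1
  Th2 := Th 1000 R.D2
  Th2' := Th' 1000 R.D2
  d1 := dP s R.f1
  d2 := dP s R.f2
  mu1 := (R.mu1 : ℝ) / 100000
  mu2 := (R.mu2 : ℝ) / 100000
  Q := q15 R.q

/-! ### the fields (all by definition) -/

theorem cd_P : (cd R h len s).P = R.par := rfl
theorem cd_K0 : (cd R h len s).K0 = K0 := rfl
theorem cd_Th1 : (cd R h len s).Th1 = Th 1000 R.D1 := rfl
theorem cd_Th1' : (cd R h len s).Th1' = Th' 1000 R.D1 := rfl
theorem cd_Th2 : (cd R h len s).Th2 = Th 1000 R.D2 := rfl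
theorem cd_Th2' : (cd R h len s).Th2' = Th' 1000 R.D2 := rfl
theorem cd_d1 : (cd R h len s).d1 = dP s R.f1 := rfl
theorem cd_d2 : (cd R h len s).d2 = dP s R.f2 := rfl
theorem cd_mu1 : (cd R h len s).mu1 = (R.mu1 : ℝ) / 100000 := rfl
theorem cd_mu2 : (cd R h len s).mu2 = (R.mu2 : ℝ) / 100000 := rfl
theorem cd_Q : (cd R h len s).Q = q15 R.q := rfl
theorem cd_f : (cd R h len s).L.f = fun t => 17 / 20 - 4 / 5 * ‖R.cb.z0 t‖ ^ 2 := rfl
theorem cd_zs : (cd R h len s).L.zs = R.cb.z0 := rfl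
theorem cd_b2s : (cd R h len s).L.b2s = R.cb.b2 := rfl
theorem cd_b3s : (cd R h len s).L.b3s = R.cb.b3 := rfl
theorem cd_p2 : (cd R h len s).L.p2 = 1 := rfl
theorem cd_p3 : (cd R h len s).L.p3 = 3 / 2 := rfl

end

section

variable {R : Rec}

theorem par_eta : R.par.eta = ((R.e1 : ℂ) + Complex.I * (R.e2 : ℂ)) / 100000 := rfl
theorem par_a0 : R.par.a0 = fun _ => 0 := rfl
theorem par_a1 : R.par.a1 = fun t => (om + R.cb.z0 t).arg := rfl
theorem par_a2 : R.par.a2 = fun t => (om ^ 2 - R.cb.z0 t).arg := rfl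
theorem par_ph1 : R.par.ph1 = inv (Th 1000 R.D1) := rfl
theorem par_ph2 : R.par.ph2 = inv (Th 1000 R.D2) := rfl
theorem par_nu : R.par.nu = (R.nu : ℝ) / 100000 := rfl
theorem par_ga : R.par.ga = fun _ => 0 := rfl
theorem par_lam : R.par.lam = (R.lam : ℝ) / 100000 := rfl
theorem par_pr2 : R.par.pr2 = 6 := rfl
theorem par_h0 : R.par.h0 = (R.h0 : ℝ) / 100000 := rfl
theorem par_cs : R.par.cs = (R.cs : ℝ) / 100000 := rfl
theorem par_m : R.par.m = (R.m : ℝ) / 100000 := rfl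

theorem normSq_int (x y : ℤ) : ‖(x : ℂ) + Complex.I * (y : ℂ)‖ ^ 2 = (x : ℝ) * x + y * y := by
  rw [← Complex.normSq_eq_norm_sq, Complex.normSq_apply]
  simp

/-- `‖eta‖²` -/
theorem eta_sq : ‖R.par.eta‖ ^ 2 = ((R.e1 : ℝ) * R.e1 + R.e2 * R.e2) / 10000000000 := by
  rw [par_eta, norm_div, div_pow, normSq_int]
  norm_num

/-- **the condition `Cs` of a record** -/
theorem cs_rec (hc : okCs R = true) {b z : ℝ → ℂ} (ha : AdmQ 2 b z) (hn : Near b z) : R.par.Cs b := by
  have hc : 0 ≤ R.cs ∧ 17 * (10000000000 + 3 * (R.e1 * R.e1 + R.e2 * R.e2)) ≤ 243 * (R.cs * R.cs) :=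
    of_decide_eq_true hc
  have h1 : (0 : ℝ) ≤ R.cs := by exact_mod_cast hc.1
  have h2 : 17 * (10000000000 + 3 * ((R.e1 : ℝ) * R.e1 + R.e2 * R.e2)) ≤ 243 * ((R.cs : ℝ) * R.cs) := by
    exact_mod_cast hc.2
  refine Helper44.Far.cs_of ha hn ?_ ?_
  · rw [par_cs]
    positivity
  · rw [eta_sq, par_cs]
    rw [div_pow]
    norm_num
    linarith

theorem okM_iff {D : CrtD} : okM R D = true ↔ 0 ≤ R.mu1 ∧ 0 ≤ R.mu2 ∧ okP D.b D.r D.s R.f1 D.q1 = true ∧
    okP D.b D.r D.s R.f2 D.q2 = true := by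
  unfold okM
  rw [bif_iff, bif_iff, bif_iff, decide_eq_true_iff, decide_eq_true_iff]

/-- **the static conditions of the cell** -/
theorem cd_ok {C : Crt} (h : R.ok C = true) {K0 : ℕ} (len : Len R K0) {D : CrtD} (hm : okM R D = true) (H : LocH) :
    (cd R h len D.s).OK := by
  obtain ⟨m1, m2, p1, p2⟩ := okM_iff.1 hm
  have k := Rec.ok_sound h
  refine ⟨Rec.stat h H, k.i1, k.i2, rfl, rfl, rfl, okP_bm p1, okP_bm p2, ?_, ?_⟩
  · rw [cd_mu1]
    have : (0 : ℝ) ≤ R.mu1 := by exact_mod_cast m1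
    positivity
  · rw [cd_mu2]
    have : (0 : ℝ) ≤ R.mu2 := by exact_mod_cast m2
    positivity

end

/-! ### the two remaining hypotheses of a cell -/

/-- THE TAIL THEOREM for the head form `HF` (windows `K` of `s`, `L` of `p`, `r`) -/
def TailH (c : CD) (K L N0 : ℕ) (HF : (ℕ → ℝ) → ℝ) : Prop :=
  ∀ N, N0 ≤ N → ∀ v : ℕ → ℝ, v 0 = 1 → ∀ p' r' s' : ℤ → ℂ, Arr N p' r' s' → TlKL K L p' r' s' →
    HF v ≤ GI c N (fun n => pV K L v n + p' n) (fun n => rV K L v n + r' n) (fun n => sV K v n + s' n)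

/-- `Lam` on the cell of the record `R` and the second list `l` -/
def LamH (R : Rec) (l : List ℤ) : Prop := ∀ b z : ℝ → ℂ, AdmQ 2 b z → Near b z →
  0 ≤ q15 R.q (fc z (-3)) (fc z (-5)) → 0 ≤ q15 l (fc z (-3)) (fc z (-5)) → R.par.Lam b z

theorem lamH_all {R : Rec} {l : List ℤ} (h : ∀ b z : ℝ → ℂ, AdmQ 2 b z → Near b z → R.par.Lam b z) : LamH R l :=
  fun b z ha hn _ _ => h b z ha hn

theorem lamH_snd {R : Rec} {l : List ℤ} (h : ∀ b z : ℝ → ℂ, AdmQ 2 b z → Near b z →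
    0 ≤ q15 l (fc z (-3)) (fc z (-5)) → R.par.Lam b z) : LamH R l :=
  fun b z ha hn _ h2 => h b z ha hn h2

/-- the finite form for all arrays -/
def GIH (c : CD) (N0 : ℕ) : Prop := ∀ N, N0 ≤ N → ∀ p r s : ℤ → ℂ, Arr N p r s → 0 ≤ GI c N p r s

theorem gi_rec {c : CD} {K L N0 : ℕ} (hK : ¬ Even K) {HF : (ℕ → ℝ) → ℝ}
    (hHF : ∀ v : ℕ → ℝ, v 0 = 1 → 0 ≤ HF v) (hT : TailH c K L N0 HF) : GIH c N0 :=
  GI_nonneg hK N0 HF hHF hT

/-- the test of `[1]` -/
theorem q15_one (A B : ℂ) : 0 ≤ q15 [1] A B := by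
  unfold q15 Pool.Agent.Helper15.SH.q15n Pool.Agent.Helper15.SH.cf
  simp

/-- **A CELL FROM A RECORD**, finite form as hypothesis -/
theorem cell_gi {R : Rec} {C : Crt} (h : R.ok C = true) {K0 : ℕ} (len : Len R K0) {D : CrtD} (hm : okM R D = true)
    (hc : okCs R = true) (H : LocH) {N0 : ℕ} (hG : GIH (cd R h len D.s) N0) {l : List ℤ} (hlam : LamH R l) :
    Cell (q15m (R.q, l)) := by
  intro b z ha hn h0
  have h1 : 0 ≤ q15 R.q (fc z (-3)) (fc z (-5)) := h0.trans (min_le_left _ _)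
  have h2 : 0 ≤ q15 l (fc z (-3)) (fc z (-5)) := h0.trans (min_le_right _ _)
  have ok := cd_ok h len hm H
  refine ⟨R.par, ⟨ok.st.reg, ok.st.cur, ok.st.loc, ok.st.blo b z ha, hlam b z ha hn h1 h2, cs_rec hc ha hn⟩, ?_⟩
  exact h1.trans (passI ok N0 hG ha hn)

/-- **A CELL FROM A RECORD** -/
theorem cell_rec {R : Rec} {C : Crt} (h : R.ok C = true) {K0 : ℕ} (len : Len R K0) {D : CrtD} (hm : okM R D = true)
    (hc : okCs R = true) (H : LocH) {K L N0 : ℕ} (hK : ¬ Even K) {HF : (ℕ → ℝ) → ℝ}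
    (hHF : ∀ v : ℕ → ℝ, v 0 = 1 → 0 ≤ HF v) (hT : TailH (cd R h len D.s) K L N0 HF) {l : List ℤ}
    (hlam : LamH R l) : Cell (q15m (R.q, l)) :=
  cell_gi h len hm hc H (gi_rec hK hHF hT) hlam

/-! ### the last line -/

/-- all pairs of the table are cells -/
def AllC : List (List ℤ × List ℤ) → Prop
  | [] => True
  | l :: ls => Cell (q15m l) ∧ AllC ls

theorem AllC.nil : AllC [] := trivial

theorem AllC.cons {l : List ℤ × List ℤ} {ls : List (List ℤ × List ℤ)} (h : Cell (q15m l)) (hs : AllC ls) :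
    AllC (l :: ls) := ⟨h, hs⟩

theorem allC_mem {ls : List (List ℤ × List ℤ)} (h : AllC ls) : ∀ l ∈ ls, Cell (q15m l) := by
  induction ls with
  | nil => intro l hl; exact absurd hl (by simp)
  | cons a ls ih =>
    intro l hl
    rcases List.mem_cons.1 hl with rfl | hl
    · exact h.1
    · exact ih h.2 l hl

theorem allC_of {ls : List (List ℤ × List ℤ)} (h : ∀ l ∈ ls, Cell (q15m l)) : AllC ls := by
  induction ls with
  | nil => trivial
  | cons a ls ih =>
    exact ⟨h a List.mem_cons_self, ih fun l hl => h l (List.mem_cons_of_mem _ hl)⟩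

theorem AllC.get {ls : List (List ℤ × List ℤ)} (h : AllC ls) (i : Fin ls.length) : Cell (q15m (ls.get i)) :=
  allC_mem h _ (List.get_mem _ _)

theorem AllC.append {l1 l2 : List (List ℤ × List ℤ)} (h1 : AllC l1) (h2 : AllC l2) : AllC (l1 ++ l2) :=
  allC_of fun l hl => (List.mem_append.1 hl).elim (allC_mem h1 l) (allC_mem h2 l)

/-- **THE LAST LINE FOR LISTS OF RECORDS** (`StRegion` is proved by helper51) -/
theorem final_list {r : ℝ} (hI : StZ1 r) {ls1 ls2 : List (List ℤ × List ℤ)} (h1 : AllC ls1)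
    (v1 : Cov1 r (fun i : Fin ls1.length => q15m (ls1.get i))) (h2 : AllC ls2)
    (v2 : Cov2 r (fun i : Fin ls2.length => q15m (ls2.get i))) :
    IsGreatest {d | ∃ K : Set ℂ, Helper97.CB.IsBody K ∧ d = Helper97.CB.theta K}
      (ENNReal.ofReal (2 * Real.pi / Real.sqrt 27)) :=
  Helper56.SH.sharp_final Pool.Agent.Helper51.RC.region hI h1.get v1 h2.get v2

/-- the same with `LocH` in front of the cells (the files of the cells do not import the tree) -/
theorem final_loc {r : ℝ} (H : LocH) (hI : StZ1 r) {ls1 ls2 : List (List ℤ × List ℤ)} (h1 : LocH → AllC ls1)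
    (v1 : Cov1 r (fun i : Fin ls1.length => q15m (ls1.get i))) (h2 : LocH → AllC ls2)
    (v2 : Cov2 r (fun i : Fin ls2.length => q15m (ls2.get i))) :
    IsGreatest {d | ∃ K : Set ℂ, Helper97.CB.IsBody K ∧ d = Helper97.CB.theta K}
      (ENNReal.ofReal (2 * Real.pi / Real.sqrt 27)) :=
  final_list hI (h1 H) v1 (h2 H) v2

end Helper70.SH
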