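import Pool.Agent.Helper70.SH.Asm

/-!
# Project SHARP (MP_b21509_co), zone II: the last line for plain lists of polynomials

The cells of the templates are `Cell (q15m (R.q, [1]))`; the covering by `q15` of the lists `R.q` is enough.
-/

set_option autoImplicit false

open MeasureTheory Set Filter Metric

namespace Helper70.SH

open Helper56.RC (fc)
open Helper56.SH (Stat Cell Cov1 Cov2 StZ1 Cert)
open Pool.Agent.Helper15.SH (q15 q15m)

/-- a cell with the second list `[1]` -/
theorem cell_q15 {q : List ℤ} (h : Cell (q15m (q, [1]))) : Cell (q15 q) := fun b z ha hn h0 =>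
  h b z ha hn (le_min h0 (q15_one _ _))

/-- all lists of the table are cells -/
def AllP : List (List ℤ) → Prop
  | [] => True
  | q :: ls => Cell (q15 q) ∧ AllP ls

theorem AllP.nil : AllP [] := trivial

/-- one more record: the list `q'` of the table is the list of the record -/
theorem AllP.cons {q q' : List ℤ} {ls : List (List ℤ)} (h : Cell (q15m (q, [1]))) (e : decide (q = q') = true)
    (hs : AllP ls) : AllP (q' :: ls) := by
  have e1 : q = q' := of_decide_eq_true e
  rw [← e1]
  exact ⟨cell_q15 h, hs⟩

theorem allP_mem {ls : List (List ℤ)} (h : AllP ls) : ∀ l ∈ ls, Cell (q15 l) := by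
  induction ls with
  | nil => intro l hl; exact absurd hl (by simp)
  | cons a ls ih =>
    intro l hl
    rcases List.mem_cons.1 hl with rfl | hl
    · exact h.1
    · exact ih h.2 l hl

theorem allP_of {ls : List (List ℤ)} (h : ∀ l ∈ ls, Cell (q15 l)) : AllP ls := by
  induction ls with
  | nil => trivial
  | cons a ls ih =>
    exact ⟨h a List.mem_cons_self, ih fun l hl => h l (List.mem_cons_of_mem _ hl)⟩

theorem AllP.get {ls : List (List ℤ)} (h : AllP ls) (i : Fin ls.length) : Cell (q15 (ls.get i)) :=
  allP_mem h _ (List.get_mem _ _)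

theorem AllP.append {l1 l2 : List (List ℤ)} (h1 : AllP l1) (h2 : AllP l2) : AllP (l1 ++ l2) :=
  allP_of fun l hl => (List.mem_append.1 hl).elim (allP_mem h1 l) (allP_mem h2 l)

/-- **THE LAST LINE FOR PLAIN LISTS** -/
theorem final_plain {r : ℝ} (hI : StZ1 r) {ls1 ls2 : List (List ℤ)} (h1 : AllP ls1)
    (v1 : Cov1 r (fun i : Fin ls1.length => q15 (ls1.get i))) (h2 : AllP ls2)
    (v2 : Cov2 r (fun i : Fin ls2.length => q15 (ls2.get i))) :
    IsGreatest {d | ∃ K : Set ℂ, Helper97.CB.IsBody K ∧ d = Helper97.CB.theta K}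
      (ENNReal.ofReal (2 * Real.pi / Real.sqrt 27)) :=
  Helper56.SH.sharp_final Pool.Agent.Helper51.RC.region hI h1.get v1 h2.get v2

end Helper70.SH
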