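import Pool.Agent.Helper70.SH.AsmQ
import Pool.Agent.Helper35.KD.Main

/-!
# Project SHARP (MP_b21509_co): the disk attains the maximum
-/

set_option autoImplicit false

open MeasureTheory Set Filter Metric

namespace Helper70.SH

open Helper97.CB (IsBody theta)

/-- the covering density of the disk, from the upper bound for all bodies and Kershner's theorem -/
theorem ball_of (h : IsGreatest {d | ∃ K : Set ℂ, IsBody K ∧ d = theta K}
    (ENNReal.ofReal (2 * Real.pi / Real.sqrt 27))) :
    theta (closedBall (0 : ℂ) 1) = ENNReal.ofReal (2 * Real.pi / Real.sqrt 27) :=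
  le_antisymm (h.2 ⟨_, Pool.Agent.Helper35.KD.isBody_disk, rfl⟩) Pool.Agent.Helper35.KD.theta_disk_ge

end Helper70.SH
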