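import Pool.Agent.Helper70.SH.AsmQ
import Pool.Agent.Helper65.SH.CovA
import Pool.Agent.Cells.A00.F
import Pool.Agent.Cells.A01.F
import Pool.Agent.Cells.A02.F
import Pool.Agent.Cells.A03.F
import Pool.Agent.Cells.A04.F
import Pool.Agent.Cells.A05.F
import Pool.Agent.Cells.A06.F
import Pool.Agent.Cells.A07.F
import Pool.Agent.Cells.A08.F
import Pool.Agent.Cells.A09.F
import Pool.Agent.Cells.A10.F
import Pool.Agent.Cells.A11.F
import Pool.Agent.Cells.A12.F
import Pool.Agent.Cells.A13.F
import Pool.Agent.Cells.A14.F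
import Pool.Agent.Cells.A15.F
import Pool.Agent.Cells.A16.F
import Pool.Agent.Cells.A17.F
import Pool.Agent.Cells.A18.F
import Pool.Agent.Cells.A19.F
import Pool.Agent.Cells.A20.F
import Pool.Agent.Cells.A21.F
import Pool.Agent.Cells.A22.F
import Pool.Agent.Cells.A23.F
import Pool.Agent.Cells.A24.F
import Pool.Agent.Cells.A25.F
import Pool.Agent.Cells.A26.F
import Pool.Agent.Cells.A27.F
import Pool.Agent.Cells.A28.F
import Pool.Agent.Cells.A29.F
import Pool.Agent.Cells.A30.F
import Pool.Agent.Cells.A31.F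
import Pool.Agent.Cells.A32.F
import Pool.Agent.Cells.A33.F
import Pool.Agent.Cells.A34.F
import Pool.Agent.Cells.A35.F
import Pool.Agent.Cells.A36.F
import Pool.Agent.Cells.A37.F
import Pool.Agent.Cells.A38.F
import Pool.Agent.Cells.A39.F
import Pool.Agent.Cells.A40.F
import Pool.Agent.Cells.A41.F
import Pool.Agent.Cells.A42.F
import Pool.Agent.Cells.A43.F
import Pool.Agent.Cells.A44.F
import Pool.Agent.Cells.A45.F
import Pool.Agent.Cells.A46.F
import Pool.Agent.Cells.A47.F
import Pool.Agent.Cells.A48.F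
import Pool.Agent.Cells.A49.F
import Pool.Agent.Cells.A50.F
import Pool.Agent.Cells.A51.F
import Pool.Agent.Cells.A52.F

/-!
# Project SHARP (MP_b21509_co), zone II: the cells of sector 1 (generated list)
-/

set_option autoImplicit false

namespace Helper70.SH

/-- the lists of the table of sector 1 are cells -/
theorem allA (H : LocH) : AllP Pool.Agent.Helper15.SH.RA := by
  unfold Pool.Agent.Helper15.SH.RA
  refine AllP.cons (Pool.Agent.Cells.A00.cell H) (by decide) ?_
  refine AllP.cons (Pool.Agent.Cells.A01.cell H) (by decide) ?_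
  refine AllP.cons (Pool.Agent.Cells.A02.cell H) (by decide) ?_
  refine AllP.cons (Pool.Agent.Cells.A03.cell H) (by decide) ?_
  refine AllP.cons (Pool.Agent.Cells.A04.cell H) (by decide) ?_
  refine AllP.cons (Pool.Agent.Cells.A05.cell H) (by decide) ?_
  refine AllP.cons (Pool.Agent.Cells.A06.cell H) (by decide) ?_
  refine AllP.cons (Pool.Agent.Cells.A07.cell H) (by decide) ?_
  refine AllP.cons (Pool.Agent.Cells.A08.cell H) (by decide) ?_
  refine AllP.cons (Pool.Agent.Cells.A09.cell H) (by decide) ?_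
  refine AllP.cons (Pool.Agent.Cells.A10.cell H) (by decide) ?_
  refine AllP.cons (Pool.Agent.Cells.A11.cell H) (by decide) ?_
  refine AllP.cons (Pool.Agent.Cells.A12.cell H) (by decide) ?_
  refine AllP.cons (Pool.Agent.Cells.A13.cell H) (by decide) ?_
  refine AllP.cons (Pool.Agent.Cells.A14.cell H) (by decide) ?_
  refine AllP.cons (Pool.Agent.Cells.A15.cell H) (by decide) ?_
  refine AllP.cons (Pool.Agent.Cells.A16.cell H) (by decide) ?_
  refine AllP.cons (Pool.Agent.Cells.A17.cell H) (by decide) ?_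
  refine AllP.cons (Pool.Agent.Cells.A18.cell H) (by decide) ?_
  refine AllP.cons (Pool.Agent.Cells.A19.cell H) (by decide) ?_
  refine AllP.cons (Pool.Agent.Cells.A20.cell H) (by decide) ?_
  refine AllP.cons (Pool.Agent.Cells.A21.cell H) (by decide) ?_
  refine AllP.cons (Pool.Agent.Cells.A22.cell H) (by decide) ?_
  refine AllP.cons (Pool.Agent.Cells.A23.cell H) (by decide) ?_
  refine AllP.cons (Pool.Agent.Cells.A24.cell H) (by decide) ?_
  refine AllP.cons (Pool.Agent.Cells.A25.cell H) (by decide) ?_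
  refine AllP.cons (Pool.Agent.Cells.A26.cell H) (by decide) ?_
  refine AllP.cons (Pool.Agent.Cells.A27.cell H) (by decide) ?_
  refine AllP.cons (Pool.Agent.Cells.A28.cell H) (by decide) ?_
  refine AllP.cons (Pool.Agent.Cells.A29.cell H) (by decide) ?_
  refine AllP.cons (Pool.Agent.Cells.A30.cell H) (by decide) ?_
  refine AllP.cons (Pool.Agent.Cells.A31.cell H) (by decide) ?_
  refine AllP.cons (Pool.Agent.Cells.A32.cell H) (by decide) ?_
  refine AllP.cons (Pool.Agent.Cells.A33.cell H) (by decide) ?_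
  refine AllP.cons (Pool.Agent.Cells.A34.cell H) (by decide) ?_
  refine AllP.cons (Pool.Agent.Cells.A35.cell H) (by decide) ?_
  refine AllP.cons (Pool.Agent.Cells.A36.cell H) (by decide) ?_
  refine AllP.cons (Pool.Agent.Cells.A37.cell H) (by decide) ?_
  refine AllP.cons (Pool.Agent.Cells.A38.cell H) (by decide) ?_
  refine AllP.cons (Pool.Agent.Cells.A39.cell H) (by decide) ?_
  refine AllP.cons (Pool.Agent.Cells.A40.cell H) (by decide) ?_
  refine AllP.cons (Pool.Agent.Cells.A41.cell H) (by decide) ?_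
  refine AllP.cons (Pool.Agent.Cells.A42.cell H) (by decide) ?_
  refine AllP.cons (Pool.Agent.Cells.A43.cell H) (by decide) ?_
  refine AllP.cons (Pool.Agent.Cells.A44.cell H) (by decide) ?_
  refine AllP.cons (Pool.Agent.Cells.A45.cell H) (by decide) ?_
  refine AllP.cons (Pool.Agent.Cells.A46.cell H) (by decide) ?_
  refine AllP.cons (Pool.Agent.Cells.A47.cell H) (by decide) ?_
  refine AllP.cons (Pool.Agent.Cells.A48.cell H) (by decide) ?_
  refine AllP.cons (Pool.Agent.Cells.A49.cell H) (by decide) ?_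
  refine AllP.cons (Pool.Agent.Cells.A50.cell H) (by decide) ?_
  refine AllP.cons (Pool.Agent.Cells.A51.cell H) (by decide) ?_
  refine AllP.cons (Pool.Agent.Cells.A52.cell H) (by decide) ?_
  exact AllP.nil

end Helper70.SH
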