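import Pool.Agent.Helper70.SH.Asm
import Pool.Agent.Helper43.SH.LocT

/-!
# Project SHARP (MP_b21509_co), zone II: link (4) in the form of the records

`locH_of`: `LocH` from the statement of the tree (`Pool.Agent.Helper25.SH.loc_main`).
-/

set_option autoImplicit false

namespace Helper70.SH

/-- link (4) for the box of the records -/
theorem locH_of (H : Helper50.SH.P4F (17 / 20) (4 / 5) 1 (3 / 2) (-(18875 / 1048576)) (37749 / 1048576)
    (33903 / 1048576) (1 / 2)) : LocH :=
  Pool.Agent.Helper43.SH.P4F_mono H le_rfl le_rfl (by norm_num) (by norm_num) le_rfl le_rfl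

end Helper70.SH
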