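import Pool.Agent.Helper70.SH.FinA
import Pool.Agent.Helper70.SH.FinB
import Pool.Agent.Helper70.SH.LocE
import Pool.Agent.Helper70.SH.Ball
import Pool.Agent.Helper25.SH.Fin
import Pool.Agent.Helper27.SH.Z1F

/-!
# Project SHARP (MP_b21509_co): the theorem

Zone I (helper27 and others), zone II (the cells, the two coverings), the local lemma (helper25), the reduction
(helper56), the bodies (helper97, helper35 and others).
-/

set_option autoImplicit false

open MeasureTheory Set Filter Metric

namespace Helper70.SH

open Helper97.CB (IsBody theta)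

/-- link (4) -/
theorem locH : LocH := locH_of Pool.Agent.Helper25.SH.loc_main

/-- **THE THEOREM**: the greatest covering density of a planar convex body -/
theorem sharp : IsGreatest {d | ∃ K : Set ℂ, IsBody K ∧ d = theta K}
    (ENNReal.ofReal (2 * Real.pi / Real.sqrt 27)) :=
  final_plain (r := 1 / 12) (Pool.Agent.Helper27.SH.stZ1 Pool.Agent.Helper25.SH.loc_main') (allA locH)
    Pool.Agent.Helper15.SH.covA (allB locH) Pool.Agent.Helper15.SH.covB

/-- the greatest covering density and the density of the disk -/
theorem sharp_ball : IsGreatest {d | ∃ K : Set ℂ, IsBody K ∧ d = theta K}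
      (ENNReal.ofReal (2 * Real.pi / Real.sqrt 27)) ∧
    theta (closedBall (0 : ℂ) 1) = ENNReal.ofReal (2 * Real.pi / Real.sqrt 27) :=
  ⟨sharp, ball_of sharp⟩

end Helper70.SH
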